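import Mathlib

/-!
No positive non-equilibrium solution of `x (n+1) = max {A, x n, x (n-1)} / x (n-2)` has a limit.
-/

namespace Pool.Agent.Results.MP_d408b2_an.NoLimit

open Filter Topology

/-- The conserved quantity. -/
noncomputable def H (A x y z : ℝ) : ℝ :=
  max 1 x * max 1 y * max 1 z * max (max A x) (max y z) / (x * y * z)

lemma H_step {A x y z w : ℝ} (hA : 0 < A) (hx : 0 < x) (hy : 0 < y) (hz : 0 < z)
    (hw : w = max A (max z y) / x) : H A y z w = H A x y z := by
  set M := max A (max z y) with hM
  have hMpos : 0 < M := lt_of_lt_of_le hA (le_max_left _ _)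
  have h1 : max (max A x) (max y z) = max x M := by
    rw [hM, max_comm z y]
    rw [max_comm A x, max_assoc]
  have h2 : max (max A y) (max z w) = max M w := by
    rw [hM, max_comm z y, ← max_assoc, ← max_assoc]
  have hwpos : 0 < w := by rw [hw]; positivity
  have h3 : max 1 w = max x M / x := by
    have : max x M / x = max (x / x) (M / x) := (max_div_div_right hx.le x M).symm
    rw [hw, this, div_self hx.ne']
  have h4 : max M w = M * max x 1 / x := by
    rw [hw]
    have : M * max x 1 / x = max (M * x / x) (M * 1 / x) := by
      rw [mul_max_of_nonneg _ _ hMpos.le, max_div_div_right hx.le]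
    rw [this, mul_div_assoc, div_self hx.ne', mul_one]
  unfold H
  rw [h1, h2, h3, h4, max_comm x 1]
  have hw' : w = M / x := hw
  rw [hw']
  field_simp

lemma eq_one_of_H {A x y z : ℝ} (hx : 0 < x) (hy : 0 < y) (hz : 0 < z)
    (h : H A x y z = 1) : x = 1 := by
  unfold H at h
  have hxyz : 0 < x * y * z := by positivity
  rw [div_eq_one_iff_eq hxyz.ne'] at h
  set m := max (max A x) (max y z) with hm
  have hmx : x ≤ m := (le_max_right A x).trans (le_max_left _ _)
  have hmy : y ≤ m := (le_max_left y z).trans (le_max_right _ _)
  have hmz : z ≤ m := (le_max_right y z).trans (le_max_right _ _)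
  have a1 : x ≤ max 1 x := le_max_right _ _
  have a2 : y ≤ max 1 y := le_max_right _ _
  have a3 : z ≤ max 1 z := le_max_right _ _
  have b1 : 1 ≤ max 1 x := le_max_left _ _
  have b2 : 1 ≤ max 1 y := le_max_left _ _
  have b3 : 1 ≤ max 1 z := le_max_left _ _
  have hmpos : 0 < m := lt_of_lt_of_le hx hmx
  have hprod : x * y * z ≤ max 1 x * max 1 y * max 1 z := by gcongr
  -- `m ≤ 1`
  have hm1 : m ≤ 1 := by
    by_contra hcon
    push Not at hcon
    have : x * y * z < max 1 x * max 1 y * max 1 z * m := by
      calc x * y * z ≤ max 1 x * max 1 y * max 1 z := hprod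
        _ < max 1 x * max 1 y * max 1 z * m := by
          have : 0 < max 1 x * max 1 y * max 1 z := by positivity
          nlinarith
    linarith
  have hx1 : x ≤ 1 := hmx.trans hm1
  have hy1 : y ≤ 1 := hmy.trans hm1
  have hz1 : z ≤ 1 := hmz.trans hm1
  rw [max_eq_left hx1, max_eq_left hy1, max_eq_left hz1] at h
  -- `m = x * y * z`
  have hm' : m = x * y * z := by linarith
  have e1 : y ≤ x * y * z := hm' ▸ hmy
  have hxz : 1 ≤ x * z := by
    by_contra hcon
    push Not at hcon
    have : x * y * z < y := by nlinarith
    linarith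
  nlinarith

/-- No non-constant positive solution has a limit. -/
theorem result (A : ℝ) (hA : 0 < A) (x : ℕ → ℝ) (hpos : ∀ n, 0 < x n)
    (hrec : ∀ n, x (n + 3) = max A (max (x (n + 2)) (x (n + 1))) / x n)
    (hnc : ¬ ∀ n, x n = x 0) : ¬ ∃ L : ℝ, Tendsto x atTop (𝓝 L) := by
  rintro ⟨L, hL⟩
  apply hnc
  have s1 : Tendsto (fun n => x (n + 1)) atTop (𝓝 L) := hL.comp (tendsto_add_atTop_nat 1)
  have s2 : Tendsto (fun n => x (n + 2)) atTop (𝓝 L) := hL.comp (tendsto_add_atTop_nat 2)
  have s3 : Tendsto (fun n => x (n + 3)) atTop (𝓝 L) := hL.comp (tendsto_add_atTop_nat 3)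
  have hprod : L * L = max A (max L L) := by
    have h1 : Tendsto (fun n => x (n + 3) * x n) atTop (𝓝 (L * L)) := s3.mul hL
    have h2 : Tendsto (fun n => max A (max (x (n + 2)) (x (n + 1)))) atTop
        (𝓝 (max A (max L L))) := tendsto_const_nhds.max (s2.max s1)
    refine tendsto_nhds_unique h1 (h2.congr fun n => ?_)
    rw [hrec n, div_mul_cancel₀ _ (hpos n).ne']
  rw [max_self] at hprod
  have hL0 : 0 ≤ L := ge_of_tendsto' hL (fun n => (hpos n).le)
  have hLpos : 0 < L := by
    rcases hL0.lt_or_eq with h | h
    · exact h
    · exfalso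
      rw [← h, mul_zero] at hprod
      have := le_max_left A (0 : ℝ)
      linarith
  rcases le_or_gt A L with hAL | hAL
  · -- the limit is one
    rw [max_eq_right hAL] at hprod
    have hL1 : L = 1 := by
      have : L * (L - 1) = 0 := by linarith
      rcases mul_eq_zero.1 this with h | h
      · exact absurd h hLpos.ne'
      · linarith
    subst hL1
    have hconst : ∀ n, H A (x n) (x (n + 1)) (x (n + 2)) = H A (x 0) (x 1) (x 2) := by
      intro n
      induction n with
      | zero => rfl
      | succ n ih =>
        rw [← ih]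
        exact H_step hA (hpos n) (hpos _) (hpos _) (hrec n)
    have hlim : Tendsto (fun n => H A (x n) (x (n + 1)) (x (n + 2))) atTop (𝓝 (H A 1 1 1)) := by
      unfold H
      refine Tendsto.div ?_ ((hL.mul s1).mul s2) (by norm_num)
      refine Tendsto.mul ?_ ?_
      · exact ((tendsto_const_nhds.max hL).mul (tendsto_const_nhds.max s1)).mul
          (tendsto_const_nhds.max s2)
      · exact (tendsto_const_nhds.max hL).max (s1.max s2)
    have hH1 : H A 1 1 1 = 1 := by
      unfold H
      simp [hAL]
    have hone : ∀ n, x n = 1 := by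
      intro n
      apply eq_one_of_H (A := A) (hpos n) (hpos (n + 1)) (hpos (n + 2))
      rw [hconst n, ← hH1]
      refine tendsto_nhds_unique ?_ hlim
      exact tendsto_const_nhds.congr fun n => (hconst n).symm
    intro n
    rw [hone n, hone 0]
  · -- the limit is the square root of `A`
    rw [max_eq_left hAL.le] at hprod
    have hev : ∀ᶠ n in atTop, x n < A := hL.eventually (gt_mem_nhds hAL)
    obtain ⟨N, hN⟩ := eventually_atTop.1 hev
    have hsix : ∀ n, N ≤ n → x (n + 6) = x n := by
      intro n hn
      have h1 : x (n + 3) = A / x n := by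
        rw [hrec n, max_eq_left]
        exact max_le (hN _ (by omega)).le (hN _ (by omega)).le
      have h2 : x (n + 6) = A / x (n + 3) := by
        have := hrec (n + 3)
        rw [show n + 3 + 3 = n + 6 by ring, show n + 3 + 2 = n + 5 by ring,
          show n + 3 + 1 = n + 4 by ring] at this
        rw [this, max_eq_left]
        exact max_le (hN _ (by omega)).le (hN _ (by omega)).le
      rw [h2, h1]
      have := (hpos n).ne'
      field_simp
    have hLN : ∀ n, N ≤ n → x n = L := by
      intro n hn
      have h1 : ∀ k, x (n + 6 * k) = x n := by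
        intro k
        induction k with
        | zero => rfl
        | succ k ih =>
          rw [← ih, show n + 6 * (k + 1) = (n + 6 * k) + 6 by ring]
          exact hsix _ (by omega)
      have h2 : Tendsto (fun k => x (n + 6 * k)) atTop (𝓝 L) := by
        apply hL.comp
        apply tendsto_atTop_mono (fun k => (by omega : k ≤ n + 6 * k)) tendsto_id
      exact tendsto_nhds_unique (tendsto_const_nhds.congr fun k => (h1 k).symm) h2
    have hback : ∀ k n, N ≤ n + k → x n = L := by
      intro k
      induction k with
      | zero => intro n hn; exact hLN n (by omega)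
      | succ k ih =>
        intro n hn
        have h1 := ih (n + 1) (by omega)
        have h2 := ih (n + 2) (by omega)
        have h3 := ih (n + 3) (by omega)
        have := hrec n
        rw [h3, h1, h2, max_self, max_eq_left hAL.le, eq_div_iff (hpos n).ne'] at this
        have h4 : L * (x n - L) = 0 := by linarith
        rcases mul_eq_zero.1 h4 with h | h
        · exact absurd h hLpos.ne'
        · linarith
    intro n
    rw [hback N n (by omega), hback N 0 (by omega)]

end Pool.Agent.Results.MP_d408b2_an.NoLimit
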